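import Mathlib

set_option autoImplicit false

namespace Pool.Agent.Results.MP_26d357_co.Exact

open Finset

open Classical in
/-- `KT k G s`: the subgraph of `G` induced on the vertex set `s` is a `k`-tree: start from a
clique on `k+1` vertices and repeatedly add a new vertex whose neighbours among the existing
vertices are exactly `k` vertices forming a clique. -/
inductive KT {V : Type} (k : ℕ) (G : SimpleGraph V) : Finset V → Prop
  | base (s : Finset V) : G.IsNClique (k + 1) s → KT k G s
  | step (s : Finset V) (x : V) : KT k G s → x ∉ s →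
      G.IsNClique k (s.filter fun u => G.Adj x u) → KT k G (insert x s)

section
open Classical
variable {V : Type} {k : ℕ} {G : SimpleGraph V}

lemma clique_le {s : Finset V} (h : KT k G s) :
    ∀ S ⊆ s, G.IsClique (S : Set V) → S.card ≤ k + 1 := by
  induction h with
  | base s hs => intro S hS _; exact (card_le_card hS).trans hs.card_eq.le
  | step s x _ hx hc ih =>
    intro S hS hcl
    by_cases hxS : x ∈ S
    · have : S.erase x ⊆ s.filter fun u => G.Adj x u := by
        intro u hu
        rw [mem_erase] at hu
        rw [mem_filter]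
        refine ⟨?_, hcl hxS hu.2 (Ne.symm hu.1)⟩
        rcases mem_insert.1 (hS hu.2) with h | h
        · exact absurd h hu.1
        · exact h
      have h1 := card_le_card this
      rw [hc.card_eq, card_erase_of_mem hxS] at h1
      omega
    · exact ih S (fun u hu => by
        rcases mem_insert.1 (hS hu) with h | h
        · exact absurd (h ▸ hu) hxS
        · exact h) hcl

lemma mindeg {s : Finset V} (h : KT k G s) :
    ∀ v ∈ s, k ≤ (s.filter fun u => G.Adj v u).card := by
  induction h with
  | base s hs =>
    intro v hv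
    have : s.erase v ⊆ s.filter fun u => G.Adj v u := by
      intro u hu
      rw [mem_erase] at hu
      exact mem_filter.2 ⟨hu.2, hs.isClique hv hu.2 (Ne.symm hu.1)⟩
    have h1 := card_le_card this
    rw [card_erase_of_mem hv, hs.card_eq] at h1
    omega
  | step s x _ hx hc ih =>
    intro v hv
    rcases mem_insert.1 hv with h | h
    · subst h
      exact hc.card_eq.ge.trans (card_le_card (filter_subset_filter _ (subset_insert _ _)))
    · exact (ih v h).trans (card_le_card (filter_subset_filter _ (subset_insert _ _)))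

/-- two vertices outside a `k`-clique `C`, adjacent to each other and to all of `C`. -/
lemma no_two {s C : Finset V} (h : KT k G s) (hC : G.IsNClique k C) (hCs : C ⊆ s) {v w : V}
    (hv : v ∈ s) (hw : w ∈ s) (hvw : G.Adj v w) (hvC : ∀ u ∈ C, G.Adj v u)
    (hwC : ∀ u ∈ C, G.Adj w u) : False := by
  have hv' : v ∉ C := fun h => G.irrefl (hvC v h)
  have hw' : w ∉ C := fun h => G.irrefl (hwC w h)
  have h1 : G.IsNClique (k + 1) (insert w C) := hC.insert hwC
  have h2 : G.IsNClique (k + 1 + 1) (insert v (insert w C)) := h1.insert (by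
    intro u hu
    rcases mem_insert.1 hu with h | h
    · exact h ▸ hvw
    · exact hvC u h)
  have := clique_le h (insert v (insert w C)) (by
    intro u hu
    rcases mem_insert.1 hu with h | h
    · exact h ▸ hv
    rcases mem_insert.1 h with h | h
    · exact h ▸ hw
    · exact hCs h) h2.isClique
  rw [h2.card_eq] at this
  omega

lemma twins {s : Finset V} (h : KT k G s) :
    ∀ v ∈ s, ∀ w ∈ s, G.Adj v w → (∀ u ∈ s, u ≠ w → G.Adj v u → G.Adj w u) →
      (∀ u ∈ s, u ≠ v → G.Adj w u → G.Adj v u) → ∀ u ∈ s, u ≠ v → G.Adj v u := by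
  induction h with
  | base s hs => intro v hv w _ _ _ _ u hu huv; exact hs.isClique hv hu (Ne.symm huv)
  | step s x hs hx hc ih =>
    have key : ∀ v ∈ s, G.Adj v x → (∀ u ∈ insert x s, u ≠ x → G.Adj v u → G.Adj x u) → False := by
      intro v hv hvx h1
      have hsub : (s.filter fun u => G.Adj v u) ⊆ (s.filter fun u => G.Adj x u).erase v := by
        intro u hu
        rw [mem_filter] at hu
        rw [mem_erase, mem_filter]
        exact ⟨fun e => G.irrefl (e ▸ hu.2), hu.1,
          h1 u (mem_insert_of_mem hu.1) (fun e => hx (e ▸ hu.1)) hu.2⟩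
      have h2 := card_le_card hsub
      have hvm : v ∈ s.filter fun u => G.Adj x u := mem_filter.2 ⟨hv, hvx.symm⟩
      have h3 := card_pos.2 ⟨v, hvm⟩
      rw [card_erase_of_mem hvm, hc.card_eq] at h2
      rw [hc.card_eq] at h3
      have := mindeg hs v hv
      omega
    intro v hv w hw hvw h1 h2
    rcases mem_insert.1 hv with e | hv'
    · subst e
      rcases mem_insert.1 hw with e | hw'
      · subst e; exact absurd hvw G.irrefl
      · exact (key w hw' hvw.symm h2).elim
    rcases mem_insert.1 hw with e | hw'
    · subst e; exact (key v hv' hvw h1).elim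
    have a1 := ih v hv' w hw' hvw (fun u hu => h1 u (mem_insert_of_mem hu))
      (fun u hu => h2 u (mem_insert_of_mem hu))
    have a2 := ih w hw' v hv' hvw.symm (fun u hu => h2 u (mem_insert_of_mem hu))
      (fun u hu => h1 u (mem_insert_of_mem hu))
    intro u hu huv
    rcases mem_insert.1 hu with e | hu'
    · subst e
      by_contra hn
      have hn2 : ¬ G.Adj w u := fun h => hn (h2 u hu huv h)
      refine no_two hs hc (filter_subset _ _) hv' hw' hvw ?_ ?_
      · intro z hz
        rw [mem_filter] at hz
        exact a1 z hz.1 (fun e => hn (e ▸ hz.2.symm))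
      · intro z hz
        rw [mem_filter] at hz
        exact a2 z hz.1 (fun e => hn2 (e ▸ hz.2.symm))
    · exact a1 u hu' huv

lemma nondom {s : Finset V} (h : KT k G s) :
    ∀ v ∈ s, ∀ S ⊆ s, G.IsClique (S : Set V) → (∀ w ∈ S, G.Adj v w) →
      (∀ w ∈ S, ∃ u ∈ s, u ≠ w ∧ G.Adj v u ∧ ¬ G.Adj w u) →
      S.card + k ≤ (s.filter fun u => G.Adj v u).card := by
  induction h with
  | base s hs =>
    intro v hv S hS _ _ h2
    have : S = ∅ := by
      by_contra hne
      obtain ⟨w, hw⟩ := nonempty_iff_ne_empty.2 hne
      obtain ⟨u, hu, huw, _, hn⟩ := h2 w hw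
      exact hn (hs.isClique (hS hw) hu (Ne.symm huw))
    subst this
    simpa using mindeg (KT.base s hs) v hv
  | step s x hs hx hc ih =>
    intro v hv S hS hcl h1 h2
    rcases mem_insert.1 hv with e | hv'
    · subst e
      have : S = ∅ := by
        by_contra hne
        obtain ⟨w, hw⟩ := nonempty_iff_ne_empty.2 hne
        obtain ⟨u, hu, huw, hvu, hn⟩ := h2 w hw
        have hu' : u ∈ s := by
          rcases mem_insert.1 hu with e | e
          · exact absurd (e ▸ hvu) G.irrefl
          · exact e
        have hw' : w ∈ s := by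
          rcases mem_insert.1 (hS hw) with e | e
          · exact absurd (e ▸ h1 w hw) G.irrefl
          · exact e
        exact hn (hc.isClique (by simpa using ⟨hw', h1 w hw⟩) (by simpa using ⟨hu', hvu⟩)
          (Ne.symm huw))
      subst this
      simpa using mindeg (KT.step s v hs hx hc) v hv
    by_cases hvx : G.Adj v x
    · have hcard : ((insert x s).filter fun u => G.Adj v u).card =
          (s.filter fun u => G.Adj v u).card + 1 := by
        rw [filter_insert, if_pos hvx, card_insert_of_notMem (fun h => hx (mem_filter.1 h).1)]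
      rw [hcard]
      -- remove the at most one bad vertex
      set S' := S.filter fun w => w ≠ x ∧ ∃ u ∈ s, u ≠ w ∧ G.Adj v u ∧ ¬ G.Adj w u with hS'
      have hA := ih v hv' S' (by
          intro w hw
          rw [hS', mem_filter] at hw
          rcases mem_insert.1 (hS hw.1) with e | e
          · exact absurd e hw.2.1
          · exact e)
        (hcl.subset (by intro w hw; exact mem_coe.2 (mem_filter.1 (mem_coe.1 hw)).1))
        (fun w hw => h1 w (mem_filter.1 hw).1) (fun w hw => (mem_filter.1 hw).2.2)
      have hB : (S.filter fun w =>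
          ¬ (w ≠ x ∧ ∃ u ∈ s, u ≠ w ∧ G.Adj v u ∧ ¬ G.Adj w u)).card ≤ 1 := by
        have bad : ∀ w ∈ S, w ≠ x → ¬ (∃ u ∈ s, u ≠ w ∧ G.Adj v u ∧ ¬ G.Adj w u) →
            ¬ G.Adj w x ∧ ∀ u ∈ s.filter (fun u => G.Adj x u), G.Adj w u := by
          intro w hw hwx hn
          obtain ⟨u, hu, huw, hvu, hwu⟩ := h2 w hw
          have hnx : ¬ G.Adj w x := by
            rcases mem_insert.1 hu with e | e
            · exact e ▸ hwu
            · exact absurd ⟨u, e, huw, hvu, hwu⟩ hn
          refine ⟨hnx, fun z hz => ?_⟩
          rw [mem_filter] at hz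
          by_cases hzv : z = v
          · exact hzv ▸ (h1 w hw).symm
          by_contra hwz
          refine hn ⟨z, hz.1, fun e => hnx (e ▸ hz.2.symm), ?_, hwz⟩
          exact hc.isClique (by simpa using ⟨hv', hvx.symm⟩) (by simpa using hz) (Ne.symm hzv)
        rw [card_le_one]
        intro a ha b hb
        rw [mem_filter] at ha hb
        by_contra hab
        have hadj : G.Adj a b := hcl ha.1 hb.1 hab
        by_cases hax : a = x
        · have hbx : b ≠ x := fun e => hab (hax.trans e.symm)
          exact (bad b hb.1 hbx (fun h => hb.2 ⟨hbx, h⟩)).1 (hax ▸ hadj.symm)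
        by_cases hbx : b = x
        · exact (bad a ha.1 hax (fun h => ha.2 ⟨hax, h⟩)).1 (hbx ▸ hadj)
        have ha' : a ∈ s := by
          rcases mem_insert.1 (hS ha.1) with e | e
          · exact absurd e hax
          · exact e
        have hb' : b ∈ s := by
          rcases mem_insert.1 (hS hb.1) with e | e
          · exact absurd e hbx
          · exact e
        exact no_two hs hc (filter_subset _ _) ha' hb' hadj
          (bad a ha.1 hax (fun h => ha.2 ⟨hax, h⟩)).2 (bad b hb.1 hbx (fun h => hb.2 ⟨hbx, h⟩)).2
      have := card_filter_add_card_filter_not (s := S)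
        (fun w => w ≠ x ∧ ∃ u ∈ s, u ≠ w ∧ G.Adj v u ∧ ¬ G.Adj w u)
      rw [← hS'] at this
      omega
    · rw [filter_insert, if_neg hvx]
      refine ih v hv' S ?_ hcl h1 ?_
      · intro w hw
        rcases mem_insert.1 (hS hw) with e | e
        · exact absurd (e ▸ h1 w hw) hvx
        · exact e
      · intro w hw
        obtain ⟨u, hu, huw, hvu, hwu⟩ := h2 w hw
        rcases mem_insert.1 hu with e | e
        · exact absurd (e ▸ hvu) hvx
        · exact ⟨u, e, huw, hvu, hwu⟩

lemma step' {s t : Finset V} (h : KT k G s) (x : V) (hx : x ∉ s) (C : Finset V)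
    (hC : G.IsNClique k C) (e1 : ∀ u, u ∈ C ↔ u ∈ s ∧ G.Adj x u) (e2 : ∀ u, u ∈ t ↔ u = x ∨ u ∈ s) :
    KT k G t := by
  have e3 : C = s.filter fun u => G.Adj x u := by ext u; rw [e1, mem_filter]
  have e4 : t = insert x s := by ext u; rw [e2, mem_insert]
  rw [e4]
  exact KT.step s x h hx (e3 ▸ hC)

/-- perfectness in the form needed: a set whose cliques are small is colourable. -/
lemma col_of_clique {s : Finset V} (h : KT k G s) (P : V → Prop) (m : ℕ)
    (hm : ∀ S ⊆ s, G.IsClique (S : Set V) → (∀ w ∈ S, P w) → S.card ≤ m + 1) :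
    ∃ c : V → Fin (m + 1), ∀ u ∈ s, ∀ w ∈ s, P u → P w → G.Adj u w → c u ≠ c w := by
  induction h with
  | base s hs =>
    have h1 := hm (s.filter P) (filter_subset _ _)
      (hs.isClique.subset (by intro w hw; exact mem_coe.2 (mem_filter.1 (mem_coe.1 hw)).1))
      (fun w hw => (mem_filter.1 hw).2)
    obtain ⟨f⟩ : Nonempty ((s.filter P) ↪ Fin (m + 1)) :=
      Function.Embedding.nonempty_of_card_le (by simpa using h1)
    refine ⟨fun u => if h : u ∈ s.filter P then f ⟨u, h⟩ else 0, ?_⟩
    intro u hu w hw pu pw huw e
    have hu' : u ∈ s.filter P := mem_filter.2 ⟨hu, pu⟩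
    have hw' : w ∈ s.filter P := mem_filter.2 ⟨hw, pw⟩
    simp only [dif_pos hu', dif_pos hw'] at e
    exact huw.ne (congrArg Subtype.val (f.injective e))
  | step s x hs hx hc ih =>
    obtain ⟨c, hcc⟩ := ih (fun S hS => hm S (hS.trans (subset_insert _ _)))
    by_cases px : P x
    · set N := (s.filter fun u => G.Adj x u).filter P with hN
      have hxN : x ∉ N := fun h => hx (mem_filter.1 (mem_filter.1 h).1).1
      have h1 := hm (insert x N) (insert_subset_insert _ ((filter_subset _ _).trans (filter_subset _ _)))
        (by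
          rw [coe_insert]
          refine (hc.isClique.subset (by
            intro w hw; exact mem_coe.2 (mem_filter.1 (mem_coe.1 hw)).1)).insert ?_
          intro b hb _
          exact (mem_filter.1 (mem_filter.1 (mem_coe.1 hb)).1).2)
        (by
          intro w hw
          rcases mem_insert.1 hw with e | e
          · exact e ▸ px
          · exact (mem_filter.1 e).2)
      rw [card_insert_of_notMem hxN] at h1
      have h2 : (N.image c).card < (univ : Finset (Fin (m + 1))).card := by
        have := card_image_le (s := N) (f := c)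
        simp only [card_univ, Fintype.card_fin]; omega
      obtain ⟨a, _, ha⟩ := exists_mem_notMem_of_card_lt_card h2
      refine ⟨Function.update c x a, ?_⟩
      have key : ∀ w ∈ s, P w → G.Adj x w → a ≠ c w := by
        intro w hw pw hxw e
        exact ha (mem_image.2 ⟨w, mem_filter.2 ⟨mem_filter.2 ⟨hw, hxw⟩, pw⟩, e.symm⟩)
      intro u hu w hw pu pw huw
      rcases mem_insert.1 hu with e | hu'
      · subst e
        rcases mem_insert.1 hw with e | hw'
        · exact absurd (e ▸ huw) G.irrefl
        · rw [Function.update_self, Function.update_of_ne huw.ne.symm]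
          exact key w hw' pw huw
      · have hux : u ≠ x := fun e => hx (e ▸ hu')
        rcases mem_insert.1 hw with e | hw'
        · subst e
          rw [Function.update_self, Function.update_of_ne hux]
          exact (key u hu' pu huw.symm).symm
        · have hwx : w ≠ x := fun e => hx (e ▸ hw')
          rw [Function.update_of_ne hux, Function.update_of_ne hwx]
          exact hcc u hu' w hw' pu pw huw
    · refine ⟨c, ?_⟩
      intro u hu w hw pu pw huw
      rcases mem_insert.1 hu with e | hu'
      · exact absurd (e ▸ pu) px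
      rcases mem_insert.1 hw with e | hw'
      · exact absurd (e ▸ pw) px
      exact hcc u hu' w hw' pu pw huw

lemma upper [Fintype V] (h : KT k G univ) (t : ℕ) (hn : k + t + 2 ≤ Fintype.card V) :
    (G.induce {v | (G.neighborSet v).ncard = k + t}).Colorable (t + 1) := by
  have hd : ∀ v, (G.neighborSet v).ncard = (univ.filter fun u => G.Adj v u).card := by
    intro v
    rw [← Set.ncard_coe_finset]; congr 1; ext u; simp
  obtain ⟨c, hc⟩ := col_of_clique h (fun v => (G.neighborSet v).ncard = k + t) t (by
    intro S _ hcl hP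
    rcases S.eq_empty_or_nonempty with e | ⟨v, hv⟩
    · simp [e]
    have := nondom h v (mem_univ _) (S.erase v) (subset_univ _)
      (hcl.subset (by intro w hw; exact mem_coe.2 (mem_of_mem_erase (mem_coe.1 hw))))
      (fun w hw => hcl hv (mem_of_mem_erase hw) (Ne.symm (mem_erase.1 hw).1)) (by
        intro w hw
        have hw' := mem_of_mem_erase hw
        have hvw : G.Adj v w := hcl hv hw' (Ne.symm (mem_erase.1 hw).1)
        by_contra hcon
        push Not at hcon
        have h1 : ∀ u ∈ (univ : Finset V), u ≠ w → G.Adj v u → G.Adj w u := hcon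
        have hsub : (univ.filter fun u => G.Adj v u).erase w ⊆
            (univ.filter fun u => G.Adj w u).erase v := by
          intro u hu
          simp only [mem_erase, mem_filter, mem_univ, true_and] at hu ⊢
          exact ⟨fun e => G.irrefl (e ▸ hu.2), h1 u (mem_univ _) hu.1 hu.2⟩
        have heq := eq_of_subset_of_card_le hsub (by
          rw [card_erase_of_mem (by simpa using hvw.symm), card_erase_of_mem (by simpa using hvw),
            ← hd, ← hd, hP v hv, hP w hw'])
        have h2 : ∀ u ∈ (univ : Finset V), u ≠ v → G.Adj w u → G.Adj v u := by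
          intro u _ huv hwu
          have : u ∈ (univ.filter fun u => G.Adj w u).erase v := by simpa using ⟨huv, hwu⟩
          rw [← heq] at this
          simpa using (mem_erase.1 this).2
        have h3 := twins h v (mem_univ _) w (mem_univ _) hvw h1 h2
        have hsub2 : univ.erase v ⊆ univ.filter fun u => G.Adj v u := by
          intro u hu
          simpa using h3 u (mem_univ _) (mem_erase.1 hu).1
        have h4 := card_le_card hsub2
        rw [card_erase_of_mem (mem_univ _), card_univ, ← hd, hP v hv] at h4
        omega)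
    rw [card_erase_of_mem hv, ← hd, hP v hv] at this
    omega)
  exact ⟨SimpleGraph.Coloring.mk (fun v => c v.1) (fun {a b} hab =>
    hc a.1 (mem_univ _) b.1 (mem_univ _) a.2 b.2 hab)⟩
end

/-- the extremal example: a clique on `0..t+1`, and `t+2+i` joined to it except to `i`. -/
def ex (t : ℕ) : SimpleGraph (Fin (2 * t + 3)) where
  Adj u v := u ≠ v ∧ (u.val < t + 2 ∨ v.val < t + 2) ∧ u.val ≠ v.val + (t + 2) ∧
    v.val ≠ u.val + (t + 2)
  symm := ⟨fun u v h => ⟨h.1.symm, h.2.1.symm, h.2.2.2, h.2.2.1⟩⟩
  loopless := ⟨fun u h => h.1 rfl⟩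

lemma ex_kt (t : ℕ) : ∀ j, j ≤ t + 1 →
    KT (t + 1) (ex t) (univ.filter fun u : Fin (2 * t + 3) => u.val < t + 2 + j) := by
  classical
  have hc : (univ.filter fun u : Fin (2 * t + 3) => u.val < t + 2).card = t + 2 := by
    rw [Fin.card_filter_val_lt]; omega
  intro j
  induction j with
  | zero =>
    intro _
    refine KT.base _ ⟨?_, hc⟩
    intro u hu v hv huv
    simp only [coe_filter, mem_univ, true_and, Set.mem_setOf_eq] at hu hv
    exact ⟨huv, Or.inl hu, by omega, by omega⟩
  | succ j ih =>
    intro hj
    refine step' (ih (by omega)) (⟨t + 2 + j, by omega⟩ : Fin (2 * t + 3)) (by simp)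
      ((univ.filter fun u : Fin (2 * t + 3) => u.val < t + 2).erase ⟨j, by omega⟩) ⟨?_, ?_⟩ ?_ ?_
    · intro u hu v hv huv
      simp only [coe_erase, coe_filter, mem_univ, true_and, Set.mem_diff, Set.mem_setOf_eq] at hu hv
      exact ⟨huv, Or.inl hu.1, by omega, by omega⟩
    · rw [card_erase_of_mem (by simp; omega), hc]; rfl
    · intro u; simp [ex, Fin.ext_iff]; omega
    · intro u; simp [Fin.ext_iff]; omega

lemma ex_deg (t : ℕ) (v : Fin (2 * t + 3)) (hv : v.val ≤ t) :
    ((ex t).neighborSet v).ncard = t + 1 + t := by
  classical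
  have : (ex t).neighborSet v =
      ((univ.erase v).erase (⟨v.val + (t + 2), by omega⟩ : Fin (2 * t + 3)) : Finset _) := by
    ext u; simp [ex, Fin.ext_iff]; omega
  rw [this, Set.ncard_coe_finset, card_erase_of_mem (by simp [Fin.ext_iff]),
    card_erase_of_mem (mem_univ _)]
  simp; omega

theorem result (t : ℕ) :
    IsGreatest {c : ℕ∞ | ∃ (k n : ℕ) (G : SimpleGraph (Fin n)), 1 ≤ k ∧ KT k G univ ∧
      k + t + 2 ≤ n ∧ c = (G.induce {v | (G.neighborSet v).ncard = k + t}).chromaticNumber}
      ((t : ℕ∞) + 1) := by
  have up : ∀ (k n : ℕ) (G : SimpleGraph (Fin n)), KT k G univ → k + t + 2 ≤ n →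
      (G.induce {v | (G.neighborSet v).ncard = k + t}).chromaticNumber ≤ (t : ℕ∞) + 1 := by
    intro k n G h hn
    have := (upper h t (by simpa using hn)).chromaticNumber_le
    exact_mod_cast this
  have hk : KT (t + 1) (ex t) univ := by
    have := ex_kt t (t + 1) le_rfl
    rwa [filter_true_of_mem (by intro u _; omega)] at this
  refine ⟨⟨t + 1, 2 * t + 3, ex t, by omega, hk, by omega, ?_⟩, ?_⟩
  · refine le_antisymm ?_ (up _ _ _ hk (by omega))
    have hcl : ((ex t).induce {v | ((ex t).neighborSet v).ncard = t + 1 + t}).IsClique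
        ((univ.map ⟨fun i : Fin (t + 1) => (⟨⟨i.val, by omega⟩, ex_deg t _ (by simp; omega)⟩ :
          {v | ((ex t).neighborSet v).ncard = t + 1 + t}), by
            intro a b h; simpa [Fin.ext_iff] using h⟩ : Finset _) : Set _) := by
      intro a ha b hb hab
      simp only [coe_map, coe_univ, Set.image_univ, Set.mem_range, Function.Embedding.coeFn_mk] at ha hb
      obtain ⟨i, rfl⟩ := ha
      obtain ⟨j, rfl⟩ := hb
      refine ⟨fun e => hab (Subtype.ext e), Or.inl ?_, ?_, ?_⟩ <;> simp <;> omega
    have := hcl.card_le_chromaticNumber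
    simpa using this
  · rintro c ⟨k, n, G, _, h, hn, rfl⟩
    exact up k n G h hn

end Pool.Agent.Results.MP_26d357_co.Exact
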